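import Pool.Agent.Helper92.RECT.Goals3

/-!
# Soundness for a slab (packet RECT-SLS)
-/

namespace Pool.Agent.Helper94.RECT

open Pool.Agent.Helper65.LinSpace Pool.Agent.Helper78.Mpc Pool.Agent.Helper28.Ram Finset
open Pool.Agent.Helper65.OH (Prm OneHead Conf Par InBox co GoodQ Fns)
open Pool.Agent.Helper28.OHS (cellN cs cn cd Rep)
open Pool.Agent.Helper92.RECT

theorem inBox_of_goodQ {D : ℕ} {m : Prm} {C : Conf D} {q : ℕ} (h : GoodQ m C q) :
    InBox m.κ C.h := by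
  intro k
  rw [← h.cq k]
  refine ⟨Int.natCast_nonneg _, ?_⟩
  have h1 : m.cq q k < 2 ^ m.κ := Nat.mod_lt _ (by positivity)
  exact_mod_cast h1

theorem fst_shf {D : ℕ} (hD : 0 < D) (z : ℤ) (p : Fin D → ℤ) : fst (shf z p) = fst p + z := by
  simp [fst, shf, hD]

theorem shf_shf {D : ℕ} (z : ℤ) (p : Fin D → ℤ) : shf z (shf (-z) p) = p := by
  funext k
  simp only [shf]
  split_ifs <;> ring

theorem sls (hSND : SND_stmt) (hRNS : RNS_stmt) (hSTA : STA_stmt) (hSTN : STN_stmt)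
    (hFCK : FCK_stmt) : SLS_stmt := by
  intro D A w y s P P' σ hr hW hn hL hR C₀ hC d a V Tc o T ho hT ha hV hT1
  have hok := hRNS A w y s P P' hr d a V Tc o ho ha hV
  obtain ⟨t, hfin, hnf, hfc⟩ := hSND _ hok hT T hT1
  set Q : Pr := (s.pr d a V Tc).sh o with hQ
  -- no failure
  have hmd : ∀ i ≤ t, s.md (Q.X i).1 ≠ 0 := by
    intro i hi h0
    rcases Nat.lt_or_ge i t with h | h
    · have h1 : s.fin (Q.X i).1 = 0 := hnf i h
      rw [Sp.fin, h0] at h1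
      exact one_ne_zero h1
    · have h2 : i = t := le_antisymm hi h
      subst h2
      have h1 : s.fc (Q.X i).1 ((Q.X i).2 Q.al) ≠ 0 := hfc
      rw [Sp.fc, h0] at h1
      exact h1 rfl
  have hstep : ∀ i, Q.X (i + 1) = (s.N (Q.X i).1 ((Q.X i).2 (s.ce (Q.X i).1)),
      Function.update (Q.X i).2 (s.ce (Q.X i).1) (s.Wr (Q.X i).1 ((Q.X i).2 (s.ce (Q.X i).1)))) :=
    fun i ↦ rfl
  have hmain : ∀ i ≤ t, Cd s P (lconf A w y σ (lcf P P' 0 0 0 C₀) i) (Q.X i).1 ∧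
      Cts s P (lconf A w y σ (lcf P P' 0 0 0 C₀) i) (Q.X i).2 := by
    intro i
    induction i with
    | zero =>
      intro h
      refine ⟨(hSTA.snd A w y s P P' hr C₀ hC).resolve_left (hmd 0 h), ?_⟩
      exact hSTA.cts A w y s P P' hr C₀ hC
    | succ i ih =>
      intro h
      obtain ⟨h1, h2⟩ := ih (by omega)
      have h3 := hSTN.snd A w y s P P' σ hr hW hn hL hR _ _ _ h1 h2 (hnf i (by omega))
      have h4 := hmd (i + 1) h
      rw [hstep] at h4 ⊢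
      exact h3.resolve_left h4
  have hLF : LFin σ (lconf A w y σ (lcf P P' 0 0 0 C₀) t) :=
    (hSTN.fin s P σ _ _ (hmain t le_rfl).1 hn hL hR).1 hfin
  have hF := hFCK.snd A w y s P P' hr _ _ _ (hmain t le_rfl).1 hfc
  refine ⟨t, hLF, ?_, hF.1, ?_⟩
  · intro j hj h1
    have h2 := (hmain j hj).1
    exact ⟨inBox_of_goodQ h2.base, (h2.pos h1).2.2⟩
  · intro hf p hp hal hP hP' hk
    obtain ⟨h1, h2, h3⟩ := hFCK.lv A w y s P P' hr p hp
    have h4 : s.lV (cd s.G p) ≠ 0 := h1.2 ⟨hP, hP', hk⟩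
    obtain ⟨h5, h6⟩ := h2 h4
    have h7 : (Q.X t).2 Q.al = cn s.G s.e s.f (s.nm s.al) := hF.2 hf (hal ▸ h4)
    have h8 : Q.al = cd s.m (shf (-P) p) := by
      rw [← h5, hal]
      rfl
    rw [← hal, h3] at h7
    rw [← h7, h8]
    apply (hmain t le_rfl).2 (shf (-P) p) h6
    · rw [fst_shf hr.pos]
      linarith
    · rw [fst_shf hr.pos, hr.W]
      linarith
    · rw [shf_shf]
      exact hp

end Pool.Agent.Helper94.RECT
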